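import Pool.Agent.R554.SplitCliquePoly

/-!
# Recognising split clique graphs with a bounded stable side is in P

For a fixed `k`, the decision problem `REC_S(k)`: the input is a finite simple graph, given by an
adjacency matrix `M : List (List Bool)`; `matGraph M` is the graph.  The question is whether it is a
split graph whose normalised partition has a stable side of at most `k` vertices, and a clique
graph.

Replacing a vertex by a set of true twins preserves clique graphs.  So the clique graphs among the
split graphs with stable side of size `s` are, for every set of neighbourhoods that occur, closed
upwards in the numbers of vertices with a given neighbourhood, and by Dickson's lemma the graph is a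
clique graph iff the graph with these numbers truncated at some constant is.
-/

set_option autoImplicit false

namespace Pool.Agent.Results.MP_4c1bf1_lc.RecSInP

open Pool.Agent.NPC Pool.Agent.H622R2 Pool.Agent.R554.SCG Pool.Agent.NPC.R554SCG

/-- `REC_S(k)` is in `P` for every `k`. -/
theorem result (k : ℕ) :
    InPP (fun M : List (List Bool) =>
      (∃ S : Set (Fin M.length), NormSplit (matGraph M) S ∧ S.ncard ≤ k) ∧
        IsCliqueGraph (matGraph M)) :=
  inP_recS k

end Pool.Agent.Results.MP_4c1bf1_lc.RecSInP
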